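import Mathlib
import Pool.Agent.QPC.FIN
import Pool.Agent.QPC.Q4

/-!
# Abhyankar's affine arithmetical conjecture for solvable groups with abelian Sylow `ℓ`-subgroups

Let `p` be a prime and `A` a finite solvable group whose Sylow `ℓ`-subgroups are abelian for all
primes `ℓ ≠ p`. If `A` modulo the subgroup generated by its Sylow `p`-subgroups is cyclic, then
`A` is the Galois group of a cover of `F_p(x)` unramified over the affine line; in particular
this is so if `A` is the Galois group of a cover of `k(x)` unramified outside `0` and `∞`, for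
some algebraically closed field `k` of characteristic `p`.
-/

set_option autoImplicit false

namespace Pool.Agent.Results.MP_37a734_ag.SolvableAbelianSylow

open Pool.Agent.QPC

/-- All primes of the integral closure of `F_p[x]` in `L` are unramified over `F_p[x]`. -/
def UnrLine (p : ℕ) [Fact p.Prime] (L : Type) [Field L] [Algebra (Polynomial (ZMod p)) L] : Prop :=
  ∀ (q : Ideal (integralClosure (Polynomial (ZMod p)) L)) (_ : q.IsPrime),
    Algebra.IsUnramifiedAt (Polynomial (ZMod p)) q

/-- All primes of the integral closure of `k[x]` in `L` not containing `x` are unramified. -/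
def UnrPunctured (k : Type) [Field k] (L : Type) [Field L] [Algebra (Polynomial k) L] : Prop :=
  ∀ (q : Ideal (integralClosure (Polynomial k) L)) (_ : q.IsPrime),
    algebraMap (Polynomial k) (integralClosure (Polynomial k) L) Polynomial.X ∉ q →
      Algebra.IsUnramifiedAt (Polynomial k) q

/-- `A` is the Galois group of a Galois extension of `F_p(x)` in which all primes of the integral
closure of `F_p[x]` are unramified (the conclusion of S00137). -/
def OverLine (p : ℕ) [Fact p.Prime] (A : Type) [Group A] : Prop :=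
  ∃ (L : Type) (_ : Field L) (_ : Algebra (RatFunc (ZMod p)) L)
    (_ : Algebra (Polynomial (ZMod p)) L)
    (_ : IsScalarTower (Polynomial (ZMod p)) (RatFunc (ZMod p)) L)
    (_ : FiniteDimensional (RatFunc (ZMod p)) L)
    (_ : IsGalois (RatFunc (ZMod p)) L),
    Nonempty ((L ≃ₐ[RatFunc (ZMod p)] L) ≃* A) ∧ UnrLine p L

/-- `A` is the Galois group of a Galois extension of `k(x)` in which all primes of the integral
closure of `k[x]` not containing `x` are unramified (the hypothesis of S00137). -/
def OverPunctured (k : Type) [Field k] (A : Type) [Group A] : Prop :=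
  ∃ (L : Type) (_ : Field L) (_ : Algebra (RatFunc k) L)
    (_ : Algebra (Polynomial k) L)
    (_ : IsScalarTower (Polynomial k) (RatFunc k) L)
    (_ : FiniteDimensional (RatFunc k) L) (_ : IsGalois (RatFunc k) L),
    Nonempty ((L ≃ₐ[RatFunc k] L) ≃* A) ∧ UnrPunctured k L

theorem result (p : ℕ) [Fact p.Prime] (A : Type) [Group A] [Finite A] [Group.IsSolvable A]
    (hab : ∀ ℓ : ℕ, ℓ.Prime → ℓ ≠ p → ∀ S : Sylow ℓ A, ∀ x ∈ S, ∀ y ∈ S, x * y = y * x)
    (h : (∃ g : A, ∀ x : A, ∃ n : ℤ, x⁻¹ * g ^ n ∈ ⨆ P : Sylow p A, (P : Subgroup A)) ∨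
      (∃ (k : Type) (_ : Field k) (_ : IsAlgClosed k) (_ : CharP k p), OverPunctured k A)) :
    OverLine p A := by
  have hcyc : ∃ g : A, ∀ x : A, ∃ n : ℤ, x⁻¹ * g ^ n ∈ pg p A := by
    rcases h with h | ⟨k, i1, i2, i3, h⟩
    · rw [← T1c p A] at h
      exact h
    · exact @Q4 p _ k i1 i2 i3 A _ _ _ h
  have hab' : ∀ ℓ : ℕ, ℓ.Prime → ℓ ≠ p → ∀ S : Subgroup A, IsPGroup ℓ S →
      ∀ x ∈ S, ∀ y ∈ S, x * y = y * x := by
    intro ℓ hl hlp S hS x hx y hy
    obtain ⟨Q, hQ⟩ := hS.exists_le_sylow
    exact hab ℓ hl hlp Q x (hQ hx) y (hQ hy)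
  obtain ⟨ρ, hρ⟩ := FIN1 p (SeparableClosure (RatFunc (ZMod p))) A hcyc hab'
  exact F7 p (SeparableClosure (RatFunc (ZMod p))) ρ hρ.toAd hρ.surj

end Pool.Agent.Results.MP_37a734_ag.SolvableAbelianSylow
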