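import Mathlib
import Pool.Agent.QPC.FIN
import Pool.Agent.QPC.RL1
import Pool.Agent.QPC.RL2

/-!
# Embedding problems over the affine line over `F_p`

If `H` is the Galois group of a cover of the affine line over `F_p`, unramified over the affine
line, whose elements of `p`-power order fix the constants, then so is every finite group `G` with
a normal `p`-subgroup `N` such that `G ⧸ N` is a quotient of `M ⋊ H`, where `M` is a finite
abelian `ℓ`-group, `ℓ ≠ p`, on which `H` acts through a group of order prime to `ℓ` such that no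
non-trivial element of `M` is fixed by all elements of `p`-power order of `H`.
-/

set_option autoImplicit false

namespace Pool.Agent.Results.MP_37a734_ag.SplitEmbedding

open Pool.Agent.QPC

/-- All primes of the integral closure of `F_p[x]` in `L` are unramified over `F_p[x]`. -/
def UnrLine (p : ℕ) [Fact p.Prime] (L : Type) [Field L] [Algebra (Polynomial (ZMod p)) L] : Prop :=
  ∀ (q : Ideal (integralClosure (Polynomial (ZMod p)) L)) (_ : q.IsPrime),
    Algebra.IsUnramifiedAt (Polynomial (ZMod p)) q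

/-- The elements of `p`-power order of `Gal(L/F_p(x))` fix the constants of `L`. -/
def FixConst (p : ℕ) [Fact p.Prime] (L : Type) [Field L] [Algebra (RatFunc (ZMod p)) L] : Prop :=
  ∀ σ : L ≃ₐ[RatFunc (ZMod p)] L, (∃ r : ℕ, σ ^ p ^ r = 1) →
    ∀ (a : L) (s : ℕ), 0 < s → a ^ p ^ s = a → σ a = a

/-- `G` is the Galois group of a finite Galois extension of `F_p(x)` with `UnrLine` and
`FixConst`. -/
def Realised (p : ℕ) [Fact p.Prime] (G : Type) [Group G] : Prop :=
  ∃ (L : Type) (_ : Field L) (_ : Algebra (RatFunc (ZMod p)) L)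
    (_ : Algebra (Polynomial (ZMod p)) L)
    (_ : IsScalarTower (Polynomial (ZMod p)) (RatFunc (ZMod p)) L)
    (_ : FiniteDimensional (RatFunc (ZMod p)) L) (_ : IsGalois (RatFunc (ZMod p)) L),
    Nonempty ((L ≃ₐ[RatFunc (ZMod p)] L) ≃* G) ∧ UnrLine p L ∧ FixConst p L

theorem result (p : ℕ) [Fact p.Prime] (M H : Type) [CommGroup M] [Group H] [Finite M] [Finite H]
    (φ : H →* MulAut M) (ℓ : ℕ) (hl : ℓ.Prime) (hlp : ℓ ≠ p) (hM : IsPGroup ℓ M)
    (hcard : ¬ ℓ ∣ Nat.card φ.range)
    (hfix : ∀ x : M, (∀ a : H, (∃ r : ℕ, a ^ p ^ r = 1) → φ a x = x) → x = 1)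
    (hH : Realised p H)
    (G : Type) [Group G] [Finite G] (N : Subgroup G) [N.Normal] (hN : IsPGroup p N)
    (f : (M ⋊[φ] H) →* G ⧸ N) (hf : Function.Surjective f) : Realised p G := by
  have h1 : R p (SeparableClosure (RatFunc (ZMod p))) H := RL1 p _ H hH
  have h2 := FINb p (SeparableClosure (RatFunc (ZMod p))) M H φ ℓ hl hlp hM hcard hfix h1
  haveI : Finite (M ⋊[φ] H) := Finite.of_equiv (M × H)
    ⟨fun x => ⟨x.1, x.2⟩, fun x => (x.left, x.right), fun _ => rfl, fun _ => rfl⟩
  have h3 := F8 p (SeparableClosure (RatFunc (ZMod p))) h2 f hf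
  have h4 := P5 p (SeparableClosure (RatFunc (ZMod p))) G N hN h3
  exact RL2 p _ G h4

end Pool.Agent.Results.MP_37a734_ag.SplitEmbedding
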