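import Mathlib
import Pool.Agent.AFA.M6

/-!
# Abhyankar's affine arithmetical conjecture for symmetric and alternating groups, p = 2

For every `n`, every group isomorphic to the symmetric group `S_n` or to the alternating
group `A_n` is the Galois group of a Galois extension of `F_2(x)` which is unramified over the
affine line over `F_2`. The conclusion is literally the one of the frozen statement for `p = 2`.
-/

set_option autoImplicit false

namespace Pool.Agent.Results.MP_37a734_ag.SymmetricAlternating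

/-- For every `n`, the symmetric group `S_n` and the alternating group `A_n` are Galois groups of
extensions of `F_2(x)` unramified at all primes of the affine line. -/
theorem result (n : ℕ) (A : Type) [Group A]
    (hA : Nonempty (A ≃* Equiv.Perm (Fin n)) ∨ Nonempty (A ≃* alternatingGroup (Fin n))) :
    ∃ (L : Type) (_ : Field L) (_ : Algebra (RatFunc (ZMod 2)) L)
      (_ : Algebra (Polynomial (ZMod 2)) L)
      (_ : IsScalarTower (Polynomial (ZMod 2)) (RatFunc (ZMod 2)) L)
      (_ : FiniteDimensional (RatFunc (ZMod 2)) L)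
      (_ : IsGalois (RatFunc (ZMod 2)) L),
      Nonempty ((L ≃ₐ[RatFunc (ZMod 2)] L) ≃* A) ∧
      ∀ (q : Ideal (integralClosure (Polynomial (ZMod 2)) L)) (_ : q.IsPrime),
        Algebra.IsUnramifiedAt (Polynomial (ZMod 2)) q := by
  obtain ⟨hAlt, hSym⟩ := Pool.Agent.AFA.realizes_every n
  rcases hA with ⟨⟨f⟩⟩ | ⟨⟨f⟩⟩
  · obtain ⟨L, i1, i2, i3, i4, i5, i6, ⟨g⟩, hq⟩ := hSym
    exact ⟨L, i1, i2, i3, i4, i5, i6, ⟨g.trans f.symm⟩, hq⟩
  · obtain ⟨L, i1, i2, i3, i4, i5, i6, ⟨g⟩, hq⟩ := hAlt
    exact ⟨L, i1, i2, i3, i4, i5, i6, ⟨g.trans f.symm⟩, hq⟩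

end Pool.Agent.Results.MP_37a734_ag.SymmetricAlternating
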